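import Mathlib

set_option autoImplicit false

namespace Pool.Agent.Helper14.AG3

universe u

/-- Abelian-by-nilpotent. -/
def AbN (T : Type u) [Group T] : Prop :=
  ∃ (M : Subgroup T) (_ : M.Normal), (∀ x ∈ M, ∀ y ∈ M, x * y = y * x) ∧
    Group.IsNilpotent (T ⧸ M)

theorem abN_map {G G' : Type u} [Group G] [Group G'] (f : G →* G')
    (hf : Function.Surjective f) (h : AbN G) : AbN G' := by
  obtain ⟨M, hM, hab, hn⟩ := h
  have hM' : (M.map f).Normal := hM.map f hf
  refine ⟨M.map f, hM', ?_, ?_⟩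
  · rintro _ ⟨x, hx, rfl⟩ _ ⟨y, hy, rfl⟩
    rw [← map_mul, ← map_mul, hab x hx y hy]
  · have hle : M ≤ (M.map f).comap f := Subgroup.le_comap_map f M
    refine Group.nilpotent_of_surjective (QuotientGroup.map M (M.map f) f hle) ?_
    intro q
    obtain ⟨g', rfl⟩ := QuotientGroup.mk_surjective q
    obtain ⟨g, rfl⟩ := hf g'
    exact ⟨(g : G ⧸ M), rfl⟩

theorem abN_comap {G G' : Type u} [Group G] [Group G'] (f : G →* G')
    (hf : Function.Injective f) (h : AbN G') : AbN G := by
  obtain ⟨M, hM, hab, hn⟩ := h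
  have hM' : (M.comap f).Normal := hM.comap f
  refine ⟨M.comap f, hM', ?_, ?_⟩
  · intro x hx y hy
    refine hf ?_
    rw [map_mul, map_mul]
    exact hab _ hx _ hy
  · refine Subgroup.isNilpotent_of_ker_le_center
      (QuotientGroup.map (M.comap f) M f le_rfl) ?_
    intro q hq
    obtain ⟨g, rfl⟩ := QuotientGroup.mk_surjective q
    have h1 : ((f g : G') : G' ⧸ M) = 1 := hq
    have h2 : f g ∈ M := (QuotientGroup.eq_one_iff _).1 h1
    have h3 : ((g : G) : G ⧸ M.comap f) = 1 := (QuotientGroup.eq_one_iff _).2 h2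
    change ((g : G) : G ⧸ M.comap f) ∈ _
    rw [h3]
    exact one_mem _

end Pool.Agent.Helper14.AG3
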