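import Pool.Agent.Helper13.AG3.Goals
import Pool.Agent.Helper14.AG2.TOP
import Pool.Agent.Helper14.AG3.AbN

set_option autoImplicit false

namespace Pool.Agent.Helper14.AG3

open Pool.Agent.Helper13.AG3

universe u

theorem abn_iff (T : Type u) [Group T] : Abn T ↔ AbN T := by
  constructor
  · rintro ⟨Q, _, g, hn, hab⟩
    refine ⟨g.ker, inferInstance, hab, ?_⟩
    refine Subgroup.isNilpotent_of_ker_le_center (QuotientGroup.kerLift g) ?_
    rw [(MonoidHom.ker_eq_bot_iff _).2 (QuotientGroup.kerLift_injective g)]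
    exact bot_le
  · rintro ⟨M, hM, hab, hn⟩
    refine ⟨T ⧸ M, inferInstance, QuotientGroup.mk' M, hn, ?_⟩
    rw [QuotientGroup.ker_mk']
    exact hab

theorem abn_map {G G' : Type u} [Group G] [Group G'] (f : G →* G')
    (hf : Function.Surjective f) (h : Abn G) : Abn G' :=
  (abn_iff G').2 (abN_map f hf ((abn_iff G).1 h))

theorem abn_comap {G G' : Type u} [Group G] [Group G'] (f : G →* G')
    (hf : Function.Injective f) (h : Abn G') : Abn G := by
  obtain ⟨Q, _, g, hn, hab⟩ := h
  refine ⟨Q, inferInstance, g.comp f, hn, ?_⟩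
  intro x hx y hy
  refine hf ?_
  rw [map_mul, map_mul]
  exact hab _ hx _ hy

/-- TOP. -/
theorem top : TopStmt.{u} := by
  refine ⟨?_, ?_⟩
  · intro G G' _ _ f hf h
    rcases h with h | h
    · exact Or.inl (Pool.Agent.Helper14.AG2.ss_map f hf h)
    · exact Or.inr (abn_map f hf h)
  · intro G G' _ _ f hf h
    rcases h with h | h
    · exact Or.inl (Pool.Agent.Helper14.AG2.ss_comap f hf h)
    · exact Or.inr (abn_comap f hf h)

end Pool.Agent.Helper14.AG3
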